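import Pool.Agent.R94.IG.P1
import Pool.Agent.R94.IG.P2
import Pool.Agent.R94.IG.P3

set_option autoImplicit false

/-!
Entrywise positivity preservers on integer matrices: on the family of Gram matrices `Xᵀ X` of integer vectors
the conclusion fails, with `f m = 8^m + (-1)^m`.
-/

namespace Pool.Agent.Results.MP_6cd9e0_an.IntegerGramMatrices

open Matrix Pool.Agent.R94.IG

/-- The function `f(m) = 8^m + (-1)^m` has `f[Xᵀ X]` positive semidefinite for every integer matrix `X` of every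
size, but there are no `c_k ≥ 0` with `f(m) = ∑ c_k m^k` for all integers `m`. -/
theorem result :
    (∀ (n d : ℕ) (X : Matrix (Fin d) (Fin n) ℤ),
      (Matrix.of fun i j : Fin n => (8 : ℝ) ^ ((Xᵀ * X) i j) + (-1 : ℝ) ^ ((Xᵀ * X) i j)).PosSemidef) ∧
    ¬ ∃ c : ℕ → ℝ, (∀ k, 0 ≤ c k) ∧
      ∀ m : ℤ, HasSum (fun k : ℕ => c k * (m : ℝ) ^ k) ((8 : ℝ) ^ m + (-1 : ℝ) ^ m) :=
  ⟨s2 s1, s3⟩

end Pool.Agent.Results.MP_6cd9e0_an.IntegerGramMatrices
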